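import Pool.Agent.MP_3ce0a0_al.H79.SpecT

/-
Fixed points of finite groups acting on trees, and connectedness of fixed sets.
-/

namespace Pool.Agent.MP_3ce0a0_al.H70

open Pool.Agent.MP_3ce0a0_al.H79

variable {V Ed : Type} {o t : Ed → V} {side : Ed → Set V}

/-- the edge `e` joins `u` and `w`. -/
def Jn (o t : Ed → V) (e : Ed) (u w : V) : Prop := (o e = u ∧ t e = w) ∨ (o e = w ∧ t e = u)

/-- the edges that separate `u` from `v`. -/
def Sep (side : Ed → Set V) (u v : V) : Set Ed := {e | ¬(u ∈ side e ↔ v ∈ side e)}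

/-- the sides. -/
def Sd (o t : Ed → V) (side : Ed → Set V) : Prop :=
  ∀ e, t e ∈ side e ∧ o e ∉ side e ∧ ∀ e', e' ≠ e → (o e' ∈ side e ↔ t e' ∈ side e)

lemma Jn.same (hs : Sd o t side) {e d : Ed} {u w : V} (h : Jn o t e u w) (hne : e ≠ d) :
    u ∈ side d ↔ w ∈ side d := by
  rcases h with ⟨rfl, rfl⟩ | ⟨rfl, rfl⟩
  · exact (hs d).2.2 e hne
  · exact ((hs d).2.2 e hne).symm

lemma Jn.diff (hs : Sd o t side) {e : Ed} {u w : V} (h : Jn o t e u w) :
    ¬(u ∈ side e ↔ w ∈ side e) := by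
  have h1 := (hs e).1
  have h2 := (hs e).2.1
  rcases h with ⟨rfl, rfl⟩ | ⟨rfl, rfl⟩ <;> tauto

lemma Jn.cases {e : Ed} {u w a b : V} (h : Jn o t e u w) (h' : Jn o t e a b) :
    (u = a ∧ w = b) ∨ (u = b ∧ w = a) := by
  rcases h with ⟨rfl, rfl⟩ | ⟨rfl, rfl⟩ <;> rcases h' with ⟨rfl, rfl⟩ | ⟨rfl, rfl⟩ <;> simp

lemma lnk_mono {P Q : Ed → Prop} (h : ∀ e, P e → Q e) {u v : V} (l : Lnk o t P u v) :
    Lnk o t Q u v := by
  induction l with
  | refl => exact Relation.ReflTransGen.refl
  | tail _ h' ih =>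
    obtain ⟨e, h1, h2⟩ := h'
    exact ih.tail ⟨e, h e h1, h2⟩

lemma lnk_same (hs : Sd o t side) {P : Ed → Prop} {u v : V} (l : Lnk o t P u v) {d : Ed}
    (hd : ¬P d) : u ∈ side d ↔ v ∈ side d := by
  induction l with
  | refl => rfl
  | tail _ h ih =>
    obtain ⟨e, h1, h2⟩ := h
    exact ih.trans (Jn.same hs h2 fun c => hd (c ▸ h1))

lemma erase (hs : Sd o t side) {P : Ed → Prop} {u v : V} (l : Lnk o t P u v) {e : Ed}
    (h : u ∈ side e ↔ v ∈ side e) : Lnk o t (fun d => P d ∧ d ≠ e) u v := by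
  have key : Lnk o t (fun d => P d ∧ d ≠ e) u v ∨ ∃ a b, Jn o t e a b ∧
      Lnk o t (fun d => P d ∧ d ≠ e) u a ∧ Lnk o t (fun d => P d ∧ d ≠ e) b v := by
    clear h
    induction l with
    | refl => exact Or.inl Relation.ReflTransGen.refl
    | tail _ h ih =>
      obtain ⟨d, h1, h2⟩ := h
      by_cases c : d = e
      · subst c
        rcases ih with ih | ⟨a, b, j, l1, l2⟩
        · exact Or.inr ⟨_, _, h2, ih, Relation.ReflTransGen.refl⟩
        · rcases Jn.cases h2 j with ⟨rfl, -⟩ | ⟨-, rfl⟩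
          · exact absurd (lnk_same hs l2 fun c => c.2 rfl).symm (j.diff hs)
          · exact Or.inl l1
      · rcases ih with ih | ⟨a, b, j, l1, l2⟩
        · exact Or.inl (ih.tail ⟨d, ⟨h1, c⟩, h2⟩)
        · exact Or.inr ⟨a, b, j, l1, l2.tail ⟨d, ⟨h1, c⟩, h2⟩⟩
  rcases key with key | ⟨a, b, j, l1, l2⟩
  · exact key
  · exact absurd ((lnk_same hs l1 fun c => c.2 rfl).symm.trans
      (h.trans (lnk_same hs l2 fun c => c.2 rfl).symm)) (j.diff hs)

lemma exists_finset {P : Ed → Prop} {u v : V} (l : Lnk o t P u v) :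
    ∃ S : Finset Ed, Lnk o t (fun d => d ∈ S) u v := by
  classical
  induction l with
  | refl => exact ⟨∅, Relation.ReflTransGen.refl⟩
  | tail _ h ih =>
    obtain ⟨e, -, h2⟩ := h
    obtain ⟨S, hS⟩ := ih
    exact ⟨insert e S, (lnk_mono (fun _ => Finset.mem_insert_of_mem) hS).tail
      ⟨e, Finset.mem_insert_self _ _, h2⟩⟩

section
variable (hs : Sd o t side) (hc : ∀ u v, Lnk o t (fun _ => True) u v)
include hs hc

lemma sep_finite (u v : V) : (Sep side u v).Finite := by
  obtain ⟨S, hS⟩ := exists_finset (hc u v)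
  exact S.finite_toSet.subset fun e he => by_contra fun c => he (lnk_same hs hS c)

lemma geo (u v : V) : Lnk o t (fun d => d ∈ Sep side u v) u v := by
  classical
  obtain ⟨S, hS⟩ := exists_finset (hc u v)
  replace hS := lnk_mono (Q := fun d => d ∈ S ∨ d ∈ Sep side u v) (fun _ => Or.inl) hS
  induction S using Finset.induction_on with
  | empty => exact lnk_mono (by simp) hS
  | insert e S _ ih =>
    refine ih ?_
    by_cases c : e ∈ Sep side u v
    · refine lnk_mono (fun d hd => ?_) hS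
      rcases hd with hd | hd
      · exact (Finset.mem_insert.1 hd).elim (fun a => Or.inr (a ▸ c)) Or.inl
      · exact Or.inr hd
    · exact lnk_mono (fun d hd => hd.1.imp_left fun a => (Finset.mem_insert.1 a).resolve_left hd.2)
        (erase hs hS (not_not.1 c))

lemma first {u v : V} (h : u ≠ v) : ∃ e w, Jn o t e u w ∧ e ∈ Sep side u v := by
  rcases Relation.ReflTransGen.cases_head (geo hs hc u v) with c | ⟨w, ⟨e, h1, h2⟩, -⟩
  · exact absurd c h
  · exact ⟨e, w, h2, h1⟩

lemma away {x y a b : V} {d e : Ed} (h : x ∈ side d ↔ y ∈ side d) (j : Jn o t e a b)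
    (hne : e ≠ d) (ha : ¬(a ∈ side d ↔ x ∈ side d)) : x ∈ side e ↔ y ∈ side e := by
  have l := erase hs (hc x y) h
  clear h
  suffices H : (x ∈ side d ↔ y ∈ side d) ∧ (x ∈ side e ↔ y ∈ side e) from H.2
  induction l with
  | refl => exact ⟨Iff.rfl, Iff.rfl⟩
  | tail _ h ih =>
    obtain ⟨c, h1, h2⟩ := h
    refine ⟨ih.1.trans (Jn.same hs h2 h1.2), ih.2.trans (Jn.same hs h2 ?_)⟩
    rintro rfl
    rcases Jn.cases h2 j with ⟨rfl, -⟩ | ⟨rfl, -⟩
    · exact ha ih.1.symm
    · exact ha ((j.same hs hne).trans ih.1.symm)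

lemma first_unique {u v w w' : V} {e e' : Ed} (j : Jn o t e u w) (j' : Jn o t e' u w')
    (h : e ∈ Sep side u v) (h' : e' ∈ Sep side u v) : e' = e := by
  by_contra c
  have h1 := j.diff hs
  have h2 : w ∈ side e ↔ v ∈ side e := by
    have h3 : ¬(u ∈ side e ↔ v ∈ side e) := h
    tauto
  exact h' ((j.same hs (Ne.symm c)).trans (away hs hc h2 j' c h1))

end

section
variable {E : Type} [Group E] [MulAction E V] [MulAction E Ed] (h : Tree E o t side)
include h

lemma Jn.smul {e : Ed} {u w : V} (j : Jn o t e u w) (g : E) : Jn o t (g • e) (g • u) (g • w) := by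
  unfold Jn
  rw [h.1, h.2.1]
  rcases j with ⟨rfl, rfl⟩ | ⟨rfl, rfl⟩ <;> simp

lemma Jn.fix {e : Ed} {u w : V} (j : Jn o t e u w) {g : E} (hg : g • e = e) :
    g • u = u ∧ g • w = w := by
  have h1 := h.1 g e
  have h2 := h.2.1 g e
  rw [hg] at h1 h2
  rcases j with ⟨rfl, rfl⟩ | ⟨rfl, rfl⟩
  · exact ⟨h1.symm, h2.symm⟩
  · exact ⟨h2.symm, h1.symm⟩

lemma side_smul (g : E) (e : Ed) (v : V) : g • v ∈ side (g • e) ↔ v ∈ side e := by
  have hs : Sd o t side := h.2.2.2.2
  have key : ∀ a, (a ∈ side e ↔ v ∈ side e) → (g • a ∈ side (g • e) ↔ g • v ∈ side (g • e)) := by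
    intro a ha
    have l := erase hs (h.2.2.2.1 a v) ha
    clear ha
    induction l with
    | refl => rfl
    | tail _ h' ih =>
      obtain ⟨c, h1, h2⟩ := h'
      exact ih.trans (Jn.same hs (Jn.smul h h2 g) fun c => h1.2 (MulAction.injective g c))
  by_cases c : v ∈ side e
  · rw [← key (t e) (iff_of_true (hs e).1 c), ← h.2.1]
    exact iff_of_true (hs _).1 c
  · rw [← key (o e) (iff_of_false (hs e).2.1 c), ← h.1]
    exact iff_of_false (hs _).2.1 c

lemma sep_smul (g : E) (e : Ed) (u v : V) :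
    g • e ∈ Sep side (g • u) (g • v) ↔ e ∈ Sep side u v := by
  simp only [Sep, Set.mem_ofPred_eq, side_smul h]

lemma ncard_smul (g : E) (u v : V) :
    (Sep side (g • u) (g • v)).ncard = (Sep side u v).ncard := by
  rw [← Set.ncard_image_of_injective (Sep side u v) (MulAction.injective g)]
  congr 1
  ext e
  obtain ⟨d, rfl⟩ := MulAction.surjective g e
  rw [sep_smul h, (MulAction.injective g).mem_set_image]

lemma fix_lnk (K : Subgroup E) {v : V} (hv : ∀ k ∈ K, k • v = v) (n : ℕ) :
    ∀ u : V, (Sep side u v).ncard ≤ n → (∀ k ∈ K, k • u = u) →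
      Lnk o t (fun e => ∀ k ∈ K, k • e = e) u v := by
  have hs : Sd o t side := h.2.2.2.2
  have hc := h.2.2.2.1
  induction n with
  | zero =>
    intro u hn _
    by_cases c : u = v
    · exact c ▸ Relation.ReflTransGen.refl
    · obtain ⟨e, -, -, he⟩ := first hs hc c
      exact absurd ((Set.ncard_pos (sep_finite hs hc u v)).2 ⟨e, he⟩) (by omega)
  | succ n ih =>
    intro u hn hu
    by_cases c : u = v
    · exact c ▸ Relation.ReflTransGen.refl
    obtain ⟨e, w, j, he⟩ := first hs hc c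
    have hK : ∀ k ∈ K, k • e = e := fun k hk => by
      have j' := j.smul h k
      have he' := (sep_smul h k e u v).2 he
      rw [hu k hk] at j' he'
      rw [hv k hk] at he'
      exact first_unique hs hc j j' he he'
    have h1 : e ∉ Sep side w v := fun a => by
      have a1 : ¬(w ∈ side e ↔ v ∈ side e) := a
      have a2 : ¬(u ∈ side e ↔ v ∈ side e) := he
      have a3 := j.diff hs
      tauto
    have h2 : Sep side w v ⊂ Sep side u v := by
      refine ⟨fun d hd a => hd ((j.same hs ?_).symm.trans a), fun a => h1 (a he)⟩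
      rintro rfl
      exact h1 hd
    have h3 := Set.ncard_lt_ncard h2 (sep_finite hs hc u v)
    exact Relation.ReflTransGen.head ⟨e, hK, j⟩
      (ih w (by omega) fun k hk => (j.fix h (hK k hk)).2)

lemma exists_fix (K : Subgroup E) [Finite K] (n : ℕ) :
    ∀ v : V, (∀ k ∈ K, (Sep side v (k • v)).ncard < n) → ∃ v : V, ∀ k ∈ K, k • v = v := by
  have hs : Sd o t side := h.2.2.2.2
  have hc := h.2.2.2.1
  induction n with
  | zero => exact fun v hv => absurd (hv 1 K.one_mem) (by omega)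
  | succ n ih =>
    intro v hv
    by_cases c : ∀ k ∈ K, k • v = v
    · exact ⟨v, c⟩
    push Not at c
    obtain ⟨k₁, m₁, c₁⟩ := c
    obtain ⟨⟨k₀, m₀⟩, hk₀⟩ := Finite.exists_max fun k : K => (Sep side v (k.1 • v)).ncard
    have pos : ∀ {x y : V}, x ≠ y → 0 < (Sep side x y).ncard := fun {x y} c => by
      obtain ⟨e, -, -, he⟩ := first hs hc c
      exact (Set.ncard_pos (sep_finite hs hc x y)).2 ⟨e, he⟩
    have c₀ : v ≠ k₀ • v := fun a => by
      have h1 := (pos c₁.symm).trans_le (hk₀ ⟨k₁, m₁⟩)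
      rw [← a] at h1
      simp [Sep] at h1
    obtain ⟨e, w, j, he⟩ := first hs hc c₀
    have claim : ∀ k ∈ K, k • v ≠ v → e ∈ Sep side v (k • v) := by
      intro k hk hne
      by_contra a
      have dis : ∀ d ∈ Sep side v (k₀ • v), d ∉ Sep side v (k • v) := by
        intro d d1 d2
        have a1 : ¬(v ∈ side d ↔ k₀ • v ∈ side d) := d1
        have a2 : ¬(v ∈ side d ↔ k • v ∈ side d) := d2
        exact he ((not_not.1 a).trans
          (away hs hc (by tauto) j (by rintro rfl; exact a d2) a2))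
      obtain ⟨d, -, -, hd⟩ := first hs hc hne.symm
      have sub : Sep side v (k₀ • v) ⊂ Sep side (k • v) (k₀ • v) := by
        refine ⟨fun f f1 f2 => f1 ((not_not.1 (dis f f1)).trans f2), fun b => ?_⟩
        have d1 : d ∉ Sep side v (k₀ • v) := fun d1 => dis d d1 hd
        exact d1 (b fun d2 => hd ((not_not.1 d1).trans d2.symm))
      have h1 := Set.ncard_lt_ncard sub (sep_finite hs hc _ _)
      have h2 := hk₀ ⟨k⁻¹ * k₀, K.mul_mem (K.inv_mem hk) m₀⟩
      rw [← ncard_smul h k, smul_smul, mul_inv_cancel_left] at h2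
      exact absurd h1 (not_lt.2 h2)
    refine ih w fun k hk => ?_
    have j' := j.smul h k
    by_cases a : k • v = v
    · have h1 := (sep_smul h k e _ _).2 he
      rw [a] at j' h1
      have h2 := claim (k * k₀) (K.mul_mem hk m₀) fun b => h1 (by rw [← mul_smul, b])
      rw [mul_smul] at h2
      rw [(j.fix h (first_unique hs hc j j' h2 h1)).2]
      have h3 := pos c₀
      have h4 := hv k₀ m₀
      have h5 : Sep side w w = ∅ := by simp [Sep]
      rw [h5, Set.ncard_empty]
      omega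
    · have h1 := claim k hk a
      have h2 := (sep_smul h k e _ _).2 (claim k⁻¹ (K.inv_mem hk) fun b => a (by
        rw [inv_smul_eq_iff] at b
        exact b.symm))
      rw [smul_inv_smul] at h2
      have h3 : k • e ≠ e := fun b => a (j.fix h b).1
      have h4 : e ∉ Sep side w (k • w) := fun b => by
        have a1 : ¬(w ∈ side e ↔ k • w ∈ side e) := b
        have a2 : ¬(v ∈ side e ↔ k • v ∈ side e) := h1
        have a3 := j.diff hs
        have a4 := j'.same hs h3
        tauto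
      have sub : Sep side w (k • w) ⊂ Sep side v (k • v) := by
        refine ⟨fun d hd b => ?_, fun b => h4 (b h1)⟩
        by_cases c : k • e = d
        · exact h2 (c ▸ b.symm)
        · refine hd (((j.same hs ?_).symm.trans b).trans (j'.same hs c))
          rintro rfl
          exact h4 hd
      have h5 := Set.ncard_lt_ncard sub (sep_finite hs hc _ _)
      have h6 := hv k hk
      omega

end

theorem sfix : SFix := by
  intro E _ V Ed _ _ o t side h
  refine ⟨fun K _ => ?_, fun K u v hu hv => fix_lnk h K hv _ u le_rfl hu⟩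
  obtain ⟨v⟩ := h.2.2.1
  obtain ⟨n, hn⟩ := Finite.exists_le fun k : K => (Sep side v (k.1 • v)).ncard
  exact exists_fix h K (n + 1) v fun k hk => Nat.lt_succ_of_le (hn ⟨k, hk⟩)

end Pool.Agent.MP_3ce0a0_al.H70
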