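import Pool.Agent.MP_3ce0a0_al.H79.SpecN

/-
Traces on modules of degree one.
-/

namespace Pool.Agent.MP_3ce0a0_al.H70

open Pool.Agent.MP_3ce0a0_al.H79 Equiv

namespace Tr

variable {ι Z : Type} [AddCommGroup Z] [Module ℂ Z] (P : WS ι (Z ≃ₗ[ℂ] Z))

lemma mem_E0 {z : Z} : z ∈ E0 P ↔ ∀ a b, P.ε a (P.ε b z) = z := by
  simp [E0, Submodule.mem_iInf, sub_eq_zero]

lemma mem_Ea {a : ι} {z : Z} : z ∈ Ea P a ↔ ∀ f, f ≠ a → P.ε a (P.ε f z) = -z := by
  simp [Ea, Submodule.mem_iInf, add_eq_zero_iff_eq_neg]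

lemma ee (a : ι) (z : Z) : P.ε a (P.ε a z) = z := LinearEquiv.congr_fun (P.ε_sq a) z

lemma ec (a b : ι) (z : Z) : P.ε a (P.ε b z) = P.ε b (P.ε a z) :=
  LinearEquiv.congr_fun (P.ε_comm a b) z

lemma pe (σ : Perm ι) (a : ι) (z : Z) : P.π σ (P.ε a z) = P.ε (σ a) (P.π σ z) :=
  LinearEquiv.congr_fun (P.π_ε σ a) z

variable {P}

lemma E0_e {z : Z} (h : z ∈ E0 P) (c : ι) : P.ε c z ∈ E0 P := by
  rw [mem_E0] at h ⊢
  intro a b
  rw [ec P b c, ec P a c, h]

lemma Ea_e {a : ι} {z : Z} (h : z ∈ Ea P a) (c : ι) : P.ε c z ∈ Ea P a := by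
  rw [mem_Ea] at h ⊢
  intro f hf
  rw [ec P f c, ec P a c, h f hf, map_neg]

lemma Ea_pi {a : ι} {z : Z} (h : z ∈ Ea P a) (σ : Perm ι) : P.π σ z ∈ Ea P (σ a) := by
  rw [mem_Ea] at h ⊢
  intro f hf
  obtain ⟨g, rfl⟩ := σ.surjective f
  rw [← pe, ← pe, h g fun e => hf (e ▸ rfl), map_neg]

lemma E0_eq {z : Z} (h : z ∈ E0 P) (a b : ι) : P.ε a z = P.ε b z := by
  rw [← (mem_E0 P).1 h a b, ee, (mem_E0 P).1 h a b]

lemma Ea_eq {a f : ι} {z : Z} (h : z ∈ Ea P a) (hf : f ≠ a) : P.ε f z = -P.ε a z := by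
  rw [← map_neg, ← (mem_Ea P).1 h f hf, ee]

lemma Ea_two {a f c : ι} {z : Z} (h : z ∈ Ea P c) (ha : a ≠ c) (hf : f ≠ c) :
    P.ε a (P.ε f z) = z := by
  rw [Ea_eq h hf, ← Ea_eq h ha, ee]

lemma prod_mem {A : Type} (u : A → ι) (l : List A) {a : ι} {z : Z} (h : z ∈ Ea P a) :
    (l.map fun x => P.ε (u x)).prod z ∈ Ea P a := by
  induction l with
  | nil => exact h
  | cons x l ih => exact Ea_e ih _

lemma prod_eq {A : Type} (u : A → ι) (l : List A) (c : ι) (s : A → ℂ) {z : Z}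
    (h : ∀ x, P.ε (u x) z = s x • P.ε c z) : (l.map fun x => P.ε (u x)).prod z =
      (l.map s).prod • if Even l.length then z else P.ε c z := by
  induction l with
  | nil => simp
  | cons x l ih =>
    rw [List.map_cons, List.prod_cons, LinearEquiv.mul_apply, ih, List.map_cons, List.prod_cons,
      map_smul, mul_comm, mul_smul, List.length_cons]
    congr 1
    by_cases e : Even l.length
    · rw [if_pos e, if_neg (by simpa [Nat.even_add_one] using e), h]
    · rw [if_neg e, if_pos (by simpa [Nat.even_add_one] using e), ec, h, map_smul, ee]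

lemma finrank_le [DecidableEq ι] [FiniteDimensional ℂ Z] (a b : ι) :
    Module.finrank ℂ (Ea P a) ≤ Module.finrank ℂ (Ea P b) := by
  rw [← LinearEquiv.finrank_map_eq (P.π (swap a b)) (Ea P a)]
  refine Submodule.finrank_mono ?_
  rintro _ ⟨z, hz, rfl⟩
  simpa using Ea_pi hz (swap a b)

lemma exists_proj [Fintype ι] (hc : 2 < Fintype.card ι) (a : ι) : ∃ p : Module.End ℂ Z,
    (∀ z ∈ E0 P, p z = 0) ∧ (∀ z ∈ Ea P a, p z = z) ∧ ∀ c, c ≠ a → ∀ z ∈ Ea P c, p z = 0 := by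
  obtain ⟨f, f', h1, h2, h3⟩ : ∃ f f', f ≠ a ∧ f' ≠ a ∧ f ≠ f' := by
    obtain ⟨x, y, w, h1, h2, h3⟩ := Fintype.two_lt_card_iff.1 hc
    by_cases e : x = a
    · exact ⟨y, w, e ▸ h1.symm, e ▸ h2.symm, h3⟩
    · by_cases e' : y = a
      · exact ⟨x, w, e, e' ▸ h3.symm, h2⟩
      · exact ⟨x, y, e, e', h1⟩
  let q : ι → Module.End ℂ Z := fun g => 1 - (P.ε a * P.ε g : Z ≃ₗ[ℂ] Z).toLinearMap
  have hq : ∀ g z, q g z = z - P.ε a (P.ε g z) := fun _ _ => rfl
  have hp : ∀ z, ((4 : ℂ)⁻¹ • (q f * q f')) z = (4 : ℂ)⁻¹ • q f (q f' z) := fun _ => rfl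
  refine ⟨(4 : ℂ)⁻¹ • (q f * q f'), fun z hz => ?_, fun z hz => ?_, fun c hca z hz => ?_⟩
  · rw [hp, hq f', (mem_E0 P).1 hz, sub_self, map_zero, smul_zero]
  · rw [hp, hq f', (mem_Ea P).1 hz f' h2, map_sub, map_neg, hq, (mem_Ea P).1 hz f h1]
    module
  · by_cases e : f' = c
    · have e' : f ≠ c := e ▸ h3
      rw [hp, hq f', map_sub, hq, hq, Ea_two hz hca.symm e',
        Ea_two (Ea_e (Ea_e hz f') a) hca.symm e', sub_self, sub_self, sub_self, smul_zero]
    · rw [hp, hq f', Ea_two hz hca.symm e, sub_self, map_zero, smul_zero]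

lemma trace_eq [Fintype ι] [FiniteDimensional ℂ Z] (hc : 2 < Fintype.card ι)
    (hd : E0 P ⊔ ⨆ a, Ea P a = ⊤) (g : Module.End ℂ Z) (h0 : ∀ z ∈ E0 P, g z = z) (s : ι → ℂ)
    (h1 : ∀ a, (∀ z ∈ Ea P a, g z = s a • z) ∨
      (s a = 0 ∧ ∃ c, c ≠ a ∧ ∀ z ∈ Ea P a, g z ∈ Ea P c)) :
    LinearMap.trace ℂ Z g =
      Module.finrank ℂ (E0 P) + ∑ a, s a * Module.finrank ℂ (Ea P a) := by
  classical
  choose p p0 p1 p2 using exists_proj (P := P) hc
  have ind : ∀ (Q : Submodule ℂ Z) (u : Module.End ℂ Z), (∀ z ∈ E0 P, u z ∈ Q) →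
      (∀ a, ∀ z ∈ Ea P a, u z ∈ Q) → ∀ z, u z ∈ Q := by
    intro Q u a1 a2 z
    have : E0 P ⊔ ⨆ a, Ea P a ≤ Q.comap u := sup_le a1 (iSup_le a2)
    exact this (hd ▸ Submodule.mem_top)
  have pm : ∀ a z, p a z ∈ Ea P a := fun a => ind _ _ (fun z hz => p0 a z hz ▸ zero_mem _)
    fun c z hz => by
      by_cases e : c = a
      · subst e
        rwa [p1 c z hz]
      · exact p2 a c e z hz ▸ zero_mem _
  have q1 : ∀ z ∈ E0 P, (1 - ∑ a, p a : Module.End ℂ Z) z = z := fun z hz => by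
    simp [fun a => p0 a z hz]
  have q2 : ∀ z, (1 - ∑ a, p a : Module.End ℂ Z) z ∈ E0 P := ind _ _
    (fun z hz => (q1 z hz).symm ▸ hz) fun c z hz => by
      rw [LinearMap.sub_apply, LinearMap.sum_apply,
        Finset.sum_eq_single c (fun a _ e => p2 a c e.symm z hz) (by simp), p1 c z hz]
      simp
  have e1 : g = (1 - ∑ a, p a) + ∑ a, g * p a := by
    ext z
    rw [LinearMap.add_apply, ← h0 _ (q2 z), ← Finset.mul_sum, Module.End.mul_apply, ← map_add]
    simp
  rw [e1, map_add, (LinearMap.IsProj.mk q2 q1).trace, map_sum]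
  congr 1
  refine Finset.sum_congr rfl fun a _ => ?_
  rcases h1 a with h | ⟨h, c, hca, hc⟩
  · have : g * p a = s a • p a := LinearMap.ext fun z => h _ (pm a z)
    rw [this, map_smul, (LinearMap.IsProj.mk (pm a) (p1 a)).trace, smul_eq_mul]
  · have a1 : g * p a = p c * (g * p a) := LinearMap.ext fun z => (p1 c _ (hc _ (pm a z))).symm
    have a2 : g * p a * p c = 0 := LinearMap.ext fun z => by
      rw [Module.End.mul_apply, Module.End.mul_apply, p2 a c hca _ (pm c z), map_zero]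
      rfl
    rw [a1, LinearMap.trace_mul_comm, a2, map_zero, h, zero_mul]

end Tr

open Tr in
theorem strace : STrace := by
  intro A B Z _ _ _ _ _ _ _ P τ a₀ hA hS hD hT
  have hc : 2 < Fintype.card (A ⊕ B) := by
    rw [Fintype.card_sum]
    omega
  have hr : ∀ a, Module.finrank ℂ (Ea P a) = Module.finrank ℂ (Ea P a₀) :=
    fun a => (finrank_le a a₀).antisymm (finrank_le a₀ a)
  have hx : ∀ z, xi P τ z = (Finset.univ.toList.map fun a : A => P.ε (Sum.inl a)).prod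
      (P.π (Perm.sumCongr 1 τ) z) := fun _ => rfl
  have x0 : ∀ z ∈ E0 P, (Finset.univ.toList.map fun a : A => P.ε (Sum.inl a)).prod z =
      if Even (Fintype.card A) then z else P.ε a₀ z := fun z hz => by
    rw [prod_eq Sum.inl _ a₀ (fun _ => 1) fun x => by rw [one_smul, E0_eq hz _ a₀]]
    simp
  have xa : ∀ a : A, ∀ z ∈ Ea P (Sum.inl a),
      (Finset.univ.toList.map fun a : A => P.ε (Sum.inl a)).prod z =
        if Even (Fintype.card A) then -z else P.ε (Sum.inl a) z := fun a z hz => by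
    rw [prod_eq Sum.inl _ (Sum.inl a) (fun x => if x = a then 1 else -1) fun x => by
      by_cases e : x = a
      · rw [if_pos e, e, one_smul]
      · rw [if_neg e, Ea_eq hz (Sum.inl_injective.ne e), neg_one_smul]]
    rw [Finset.prod_map_toList, Finset.length_toList, Finset.card_univ,
      ← Finset.mul_prod_erase _ _ (Finset.mem_univ a), if_pos rfl, one_mul,
      Finset.prod_congr rfl fun x hx => if_neg (Finset.ne_of_mem_erase hx), Finset.prod_const,
      Finset.card_erase_of_mem (Finset.mem_univ a), Finset.card_univ]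
    obtain ⟨n, hn⟩ : ∃ n, Fintype.card A = n + 1 := ⟨Fintype.card A - 1, by omega⟩
    rw [hn, Nat.add_sub_cancel]
    rcases Nat.even_or_odd n with e | e
    · rw [e.neg_one_pow, one_smul, if_neg (by simpa [Nat.even_add_one] using e),
        if_neg (by simpa [Nat.even_add_one] using e)]
    · rw [e.neg_one_pow, if_pos e.add_one, if_pos e.add_one, neg_one_smul]
  have key : (∀ z ∈ E0 P, xi P τ z = z) ∧ (∀ a : A, ∀ z ∈ Ea P (Sum.inl a), xi P τ z = -z) ∧
      ∀ b, τ b ≠ b := by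
    rcases hS with ⟨h1, h2⟩ | ⟨y, y', h1, h2, rfl, h3⟩
    · have e : τ = 1 := Subsingleton.elim _ _
      subst e
      refine ⟨fun z hz => ?_, fun a z hz => ?_, fun b => h1.elim b⟩
      · rw [hx, Perm.sumCongr_one, map_one, LinearEquiv.coe_one, id, x0 z hz, if_pos h2]
      · rw [hx, Perm.sumCongr_one, map_one, LinearEquiv.coe_one, id, xa a z hz, if_pos h2]
    · have h4 := Nat.not_even_iff_odd.2 h3
      have h5 : (Sum.inr y : A ⊕ B) ≠ Sum.inr y' := Sum.inr_injective.ne h1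
      refine ⟨fun z hz => ?_, fun a z hz => ?_, fun b => ?_⟩
      · have e := hT.1 _ _ h5 _ (E0_e hz (Sum.inr y'))
        rw [ee] at e
        rw [hx, Perm.sumCongr_one_swap, e, x0 _ (E0_e hz _), if_neg h4, (mem_E0 P).1 hz]
      · have e := hT.2.2 _ _ _ h5 Sum.inr_ne_inl Sum.inr_ne_inl _ (Ea_e hz (Sum.inr y'))
        rw [ee] at e
        rw [hx, Perm.sumCongr_one_swap, e, xa a _ (Ea_e hz _), if_neg h4,
          (mem_Ea P).1 hz _ Sum.inr_ne_inl]
      · rcases h2 b with rfl | rfl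
        · rw [swap_apply_left]
          exact h1.symm
        · rw [swap_apply_right]
          exact h1
  refine ⟨?_, hr, key.2.1, fun σ hσ => ?_⟩
  · have h := trace_eq hc hD.1 1 (fun _ _ => rfl) (fun _ => 1) fun a => Or.inl fun z _ => by simp
    simp only [LinearMap.trace_one, hr, one_mul, Finset.sum_const, Finset.card_univ,
      nsmul_eq_mul] at h
    rw [mul_comm]
    exact_mod_cast h
  · have hs : Perm.sign (Perm.sumCongr σ (1 : Perm B)) = 1 := by
      rw [Perm.sign_sumCongr, hσ, map_one, mul_one]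
    have hg : ∀ z, (xi P τ * P.π (Perm.sumCongr σ 1) : Z ≃ₗ[ℂ] Z).toLinearMap z =
        xi P τ (P.π (Perm.sumCongr σ 1) z) := fun _ => rfl
    rw [trace_eq hc hD.1 _ (fun z hz => by rw [hg, hT.2.1 _ hs z hz, key.1 z hz])
      (Sum.elim (fun a => if σ a = a then -1 else 0) fun _ => 0) ?_]
    · simp only [hr, Fintype.sum_sum_type, Sum.elim_inl, Sum.elim_inr,
        Finset.sum_const_zero, add_zero, ← Finset.sum_mul]
      rw [Nat.card_eq_fintype_card, Fintype.card_subtype, ← Finset.sum_filter, Finset.sum_const]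
      simp only [nsmul_eq_mul]
      ring
    · rintro (a | b)
      · by_cases e : σ a = a
        · refine Or.inl fun z hz => ?_
          rw [hg, hD.2 _ z hz _ hs (by simp [e]), key.2.1 a z hz, Sum.elim_inl, if_pos e,
            neg_one_smul]
        · refine Or.inr ⟨if_neg e, Sum.inl (σ a), Sum.inl_injective.ne e, fun z hz => ?_⟩
          have h1 := Ea_pi hz (Perm.sumCongr σ 1)
          rw [Perm.sumCongr_apply, Sum.map_inl] at h1
          rw [hg, key.2.1 _ _ h1]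
          exact neg_mem h1
      · refine Or.inr ⟨rfl, Sum.inr (τ b), Sum.inr_injective.ne (key.2.2 b), fun z hz => ?_⟩
        have h1 := Ea_pi (Ea_pi hz (Perm.sumCongr σ 1)) (Perm.sumCongr 1 τ)
        rw [Perm.sumCongr_apply, Perm.sumCongr_apply, Sum.map_inr, Sum.map_inr,
          Perm.one_apply] at h1
        rw [hg, hx]
        exact prod_mem Sum.inl _ h1

end Pool.Agent.MP_3ce0a0_al.H70
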