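import Pool.Agent.MP_3ce0a0_al.H79.Y3B

/-
Shape C: one of the two triples of lines spans an invariant subspace.
-/

namespace Pool.Agent.MP_3ce0a0_al.H79.Y

open Equiv Module Pool.Agent.MP_3ce0a0_al.H79.X

namespace H70

/-- the scalar equations force one of the two triangular shapes. -/
lemma scal {x y r y' w s u v u' x' y1 r' q w' s' m n z : ℂ}
    (A1 : n * q = 0) (A2 : n * w' = 0) (A3 : m * u' = r * z) (A4 : m * y' = s * x')
    (A5 : n * y' = s * y1) (A6 : s * w = 0) (A7 : m * x = r * x') (A8 : n * x = r * y1)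
    (A9 : s * y = 0) (B1 : v * y' = 0) (B2 : v * w = 0) (B3 : r' * u' = u * z)
    (B6 : s' * w' = 0) (B7 : r' * x = u * x') (B9 : s' * y1 = 0)
    (R1 : x * x - y * y' - r * u = 1) (R2 : r * v + w * y - x * y = 0)
    (R5 : s * v + w * w - y * y' = 1) (R11 : x' * x' - m * r' - q * y1 = 1)
    (R12 : n * r' + w' * y1 - x' * y1 = 0) (R15 : n * s' - q * y1 + w' * w' = 1)
    (R18 : u' * u' + s * v - r * u = 1) (C : r * u = q * y1) :
    (r = 0 ∧ s = 0 ∧ m = 0 ∧ n = 0) ∨ (u = 0 ∧ v = 0 ∧ r' = 0 ∧ s' = 0) := by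
  have hs : s = 0 := by
    by_contra h
    obtain rfl : w = 0 := (mul_eq_zero.1 A6).resolve_left h
    obtain rfl : y = 0 := (mul_eq_zero.1 A9).resolve_left h
    have hv : v ≠ 0 := by rintro rfl; simp at R5
    obtain rfl : y' = 0 := (mul_eq_zero.1 B1).resolve_left hv
    obtain rfl : x' = 0 := (mul_eq_zero.1 (by linear_combination -A4)).resolve_left h
    obtain rfl : y1 = 0 := (mul_eq_zero.1 (by linear_combination -A5)).resolve_left h
    have hm : m ≠ 0 := by rintro rfl; simp at R11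
    obtain rfl : x = 0 := (mul_eq_zero.1 (by linear_combination A7)).resolve_left hm
    obtain rfl : r = 0 := (mul_eq_zero.1 (by linear_combination R2)).resolve_right hv
    simp at R1
  subst hs
  have hv : v = 0 := by
    by_contra h
    obtain rfl : y' = 0 := (mul_eq_zero.1 B1).resolve_left h
    obtain rfl : w = 0 := (mul_eq_zero.1 B2).resolve_left h
    simp at R5
  subst hv
  have hn : n = 0 := by
    by_contra h
    obtain rfl : q = 0 := (mul_eq_zero.1 A1).resolve_left h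
    obtain rfl : w' = 0 := (mul_eq_zero.1 A2).resolve_left h
    have hs : s' ≠ 0 := by rintro rfl; simp at R15
    obtain rfl : y1 = 0 := (mul_eq_zero.1 B9).resolve_left hs
    obtain rfl : y' = 0 := (mul_eq_zero.1 (by linear_combination A5)).resolve_left h
    obtain rfl : x = 0 := (mul_eq_zero.1 (by linear_combination A8)).resolve_left h
    obtain rfl : r' = 0 := (mul_eq_zero.1 (by linear_combination R12)).resolve_left h
    have hu : u ≠ 0 := by rintro rfl; simp at R1
    obtain rfl : x' = 0 := (mul_eq_zero.1 (by linear_combination -B7)).resolve_left hu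
    simp at R11
  subst hn
  have hs : s' = 0 := by
    by_contra h
    obtain rfl : w' = 0 := (mul_eq_zero.1 B6).resolve_left h
    obtain rfl : y1 = 0 := (mul_eq_zero.1 B9).resolve_left h
    simp at R15
  subst hs
  by_cases hr : r = 0
  · subst hr
    exact Or.inl ⟨rfl, rfl, by linear_combination u' * A3 - m * R18, rfl⟩
  · obtain rfl : y1 = 0 := (mul_eq_zero.1 (by linear_combination -A8)).resolve_left hr
    obtain rfl : u = 0 := (mul_eq_zero.1 (by linear_combination C)).resolve_left hr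
    exact Or.inr ⟨rfl, rfl, by linear_combination u' * B3 - r' * R18, rfl⟩

/-- the product of two right multiplications by the same letter commutes with the inversion. -/
lemma in3 {W : Type} [Group W] {N : NS (Fin 3) W} (hI : In3 N) {a b c : Fin 3} (d : D3 a b c) :
    DD N.toWS * (N.ρ a b * N.ρ c b) = N.ρ a b * N.ρ c b * DD N.toWS := by
  have h := hI a b c d
  have c1 := (N.ρ_lam c b a b d.2.2 d.1 d.2.2 d.1).inv_right.eq
  have c2 := (N.lam_lam a b c b d.1 d.2.2 d.2.1.symm d.1 d.2.2).eq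
  have k : N.ρ a b * N.ρ c b = N.lam a b * N.lam c b := by
    rw [c2]
    calc N.ρ a b * N.ρ c b
        = N.ρ a b * (N.ρ c b * (N.lam a b)⁻¹) * (N.lam c b)⁻¹ * (N.lam c b * N.lam a b) := by group
      _ = KK N a b * KK N c b * (N.lam c b * N.lam a b) := by
          rw [c1]; simp only [KK, mul_assoc]
      _ = _ := by rw [h, one_mul]
  conv_lhs => rw [k, lam_eq N d.1, lam_eq N d.2.2]
  have q : ∀ g, DD N.toWS * (DD N.toWS * g) = g := fun g => by
    rw [← mul_assoc, DD_sq, one_mul]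
  simp only [mul_assoc, q]

variable {H : Type} [AddCommGroup H] [Module ℂ H]

/-- the eighteen constants. -/
structure Co where
  (x y r y' w s u v u' x' y1 r' q w' s' m n z : ℂ)

/-- the matrix of a right multiplication. -/
def Sh (g : GH H) (e f : Fin 3 → H) (k : Co) (a b c : Fin 3) (δ : ℂ) : Prop :=
  g (e a) = k.x • e a + k.y • e b + (δ * k.r) • f c ∧
  g (e b) = k.y' • e a + k.w • e b + (δ * k.s) • f c ∧
  g (f c) = (δ * k.u) • e a + (δ * k.v) • e b + k.u' • f c ∧
  g (f a) = k.x' • f a + k.y1 • f b + (δ * k.r') • e c ∧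
  g (f b) = k.q • f a + k.w' • f b + (δ * k.s') • e c ∧
  g (e c) = (δ * k.m) • f a + (δ * k.n) • f b + k.z • e c

variable {P : WS (Fin 3) (GH H)} {e f : Fin 3 → H}

lemma εe (h : DC P e f) (a b : Fin 3) : P.ε a (e b) = (if a = b then -1 else 1 : ℂ) • e b := by
  rw [mem_Se.1 (h.1 b).2 a]
  by_cases k : a = b <;> simp [k]

lemma εf (h : DC P e f) (a b : Fin 3) : P.ε a (f b) = (if a = b then 1 else -1 : ℂ) • f b := by
  rw [mem_Se.1 (h.2.1 b).2 a]
  by_cases k : a = b <;> simp [k]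

/-- coordinate functionals. -/
lemma coords (h : DC P e f) : ∃ E F : Fin 3 → H →ₗ[ℂ] ℂ,
    (∀ i j, E i (e j) = if i = j then 1 else 0) ∧ (∀ i j, E i (f j) = 0) ∧
    (∀ i j, F i (e j) = 0) ∧ ∀ i j, F i (f j) = if i = j then 1 else 0 := by
  choose φ hφ using fun i => Module.Projective.exists_dual_eq_one ℂ (h.1 i).1
  choose ψ hψ using fun i => Module.Projective.exists_dual_eq_one ℂ (h.2.1 i).1
  have n0 : ∀ i j : Fin 3, ({i} : Finset (Fin 3)) ≠ {j}ᶜ := by decide
  refine ⟨fun i => φ i ∘ₗ pr P {i}, fun i => ψ i ∘ₗ pr P {i}ᶜ, fun i j => ?_, fun i j => ?_,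
    fun i j => ?_, fun i j => ?_⟩
  · by_cases k : i = j <;> simp [pr_of (h.1 j).2, k, hφ]
  · simp [pr_of (h.2.1 j).2, n0]
  · simp [pr_of (h.1 j).2, (n0 _ _).symm]
  · by_cases k : i = j <;> simp [pr_of (h.2.1 j).2, k, hψ]

lemma pos (h : DC P e f) {v : H} (hv : P.ε 2 v = v) :
    ∃ x y r : ℂ, v = x • e 0 + y • e 1 + r • f 2 := by
  obtain ⟨c, d, rfl⟩ := h.2.2.2.2 v
  refine ⟨c 0, c 1, d 2, ?_⟩
  simp only [Fin.sum_univ_three, map_add, map_smul, εe h, εf h, Fin.reduceEq, reduceIte] at hv ⊢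
  linear_combination (norm := module) (-1 / 2 : ℂ) • hv

lemma neg (h : DC P e f) {v : H} (hv : P.ε 2 v = -v) :
    ∃ x y r : ℂ, v = x • f 0 + y • f 1 + r • e 2 := by
  obtain ⟨c, d, rfl⟩ := h.2.2.2.2 v
  refine ⟨d 0, d 1, c 2, ?_⟩
  simp only [Fin.sum_univ_three, map_add, map_smul, εe h, εf h, Fin.reduceEq, reduceIte] at hv ⊢
  linear_combination (norm := module) (1 / 2 : ℂ) • hv

variable {N : NS (Fin 3) (GH H)}

lemma exSh (h : DC N.toWS e f) : ∃ k, Sh (N.ρ 0 1) e f k 0 1 2 1 := by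
  have c : ∀ v, N.ε 2 (N.ρ 0 1 v) = N.ρ 0 1 (N.ε 2 v) := fun v =>
    gap (N.ε_other 0 1 2 (by decide) (by decide) (by decide)).eq v
  obtain ⟨x, y, r, h1⟩ := pos h (v := N.ρ 0 1 (e 0)) (by rw [c, εe h]; simp)
  obtain ⟨y', w, s, h2⟩ := pos h (v := N.ρ 0 1 (e 1)) (by rw [c, εe h]; simp)
  obtain ⟨u, v, u', h3⟩ := pos h (v := N.ρ 0 1 (f 2)) (by rw [c, εf h]; simp)
  obtain ⟨x', y1, r', h4⟩ := neg h (v := N.ρ 0 1 (f 0)) (by rw [c, εf h]; simp)
  obtain ⟨q, w', s', h5⟩ := neg h (v := N.ρ 0 1 (f 1)) (by rw [c, εf h]; simp)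
  obtain ⟨m, n, z, h6⟩ := neg h (v := N.ρ 0 1 (e 2)) (by rw [c, εe h]; simp)
  refine ⟨⟨x, y, r, y', w, s, u, v, u', x', y1, r', q, w', s', m, n, z⟩, ?_⟩
  simp only [Sh, one_mul]
  exact ⟨h1, h2, h3, h4, h5, h6⟩

lemma Sh.move (h : DC N.toWS e f) {k : Co} {a b c : Fin 3} (hab : a ≠ b)
    (hk : Sh (N.ρ a b) e f k a b c 1) (p : Perm (Fin 3)) :
    Sh (N.ρ (p a) (p b)) e f k (p a) (p b) (p c) (sg (-1) p) := by
  have t : ∀ v, N.ρ (p a) (p b) (N.π p v) = N.π p (N.ρ a b v) := fun v =>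
    (gap (N.π_ρ p a b hab) v).symm
  obtain ⟨h1, h2, h3, h4, h5, h6⟩ := hk
  have t1 := t (e a)
  have t2 := t (e b)
  have t3 := t (f c)
  have t4 := t (f a)
  have t5 := t (f b)
  have t6 := t (e c)
  simp only [h1, h2, h3, h4, h5, h6, map_add, map_smul, h.2.2.1, h.2.2.2.1] at t1 t2 t3 t4 t5 t6
  rcases sg_cases (-1) p with l | l <;> rw [l] at t1 t2 t3 t4 t5 t6 ⊢
  · exact ⟨by linear_combination (norm := module) t1, by linear_combination (norm := module) t2,
      by linear_combination (norm := module) t3, by linear_combination (norm := module) t4,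
      by linear_combination (norm := module) t5, by linear_combination (norm := module) t6⟩
  · exact ⟨by linear_combination (norm := module) -t1, by linear_combination (norm := module) -t2,
      by linear_combination (norm := module) t3, by linear_combination (norm := module) t4,
      by linear_combination (norm := module) t5, by linear_combination (norm := module) -t6⟩

/-- the alternative for the constants. -/
lemma alt (hI : In3 N) (h : DC N.toWS e f) {k : Co} (hk : Sh (N.ρ 0 1) e f k 0 1 2 1) :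
    (k.r = 0 ∧ k.s = 0 ∧ k.m = 0 ∧ k.n = 0) ∨ (k.u = 0 ∧ k.v = 0 ∧ k.r' = 0 ∧ k.s' = 0) := by
  obtain ⟨E, F, Ee, Ef, Fe, Ff⟩ := coords h
  have h21 : Sh (N.ρ 2 1) e f k 2 1 0 (-1) := by
    have := hk.move h (by decide) (swap 0 2)
    rwa [sg_swap _ (by decide)] at this
  have h02 : Sh (N.ρ 0 2) e f k 0 2 1 (-1) := by
    have := hk.move h (by decide) (swap 1 2)
    rwa [sg_swap _ (by decide)] at this
  obtain ⟨a1, a2, a3, a4, a5, a6⟩ := hk
  obtain ⟨b1, b2, b3, b4, b5, b6⟩ := h21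
  obtain ⟨-, c2, c3, c4, -, -⟩ := h02
  have De : ∀ i, DD N.toWS (e i) = -e i := fun i => DD_one (h.1 i).2
  have Df : ∀ i, DD N.toWS (f i) = f i := fun i => DD_two (h.2.1 i).2
  have R : ∀ v, N.ε 1 (N.ρ 0 1 (N.ε 1 (N.ρ 0 1 v))) = v := fun v => by
    have := gap (N.ε_right 0 1 (by decide)) (N.ρ 0 1 v)
    rwa [ginv'] at this
  have A : ∀ v, DD N.toWS (N.ρ 0 1 (N.ρ 2 1 v)) = N.ρ 0 1 (N.ρ 2 1 (DD N.toWS v)) := fun v =>
    gap (in3 hI (c := 2) (by unfold D3; decide)) v
  have C : ∀ v, N.ρ 0 1 (DD N.toWS (N.ρ 0 2 (DD N.toWS v))) =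
      DD N.toWS (N.ρ 0 2 (DD N.toWS (N.ρ 0 1 v))) := fun v => by
    have := (ρ_lam_same N (a := 0) (b := 1) (c := 2) (by decide) (by decide)).eq
    rw [lam_eq N (by decide)] at this
    exact gap this v
  have A1 := congrArg (F 0) (A (e 0))
  have A2 := congrArg (F 1) (A (e 0))
  have A3 := congrArg (F 2) (A (e 0))
  have A4 := congrArg (F 0) (A (e 1))
  have A5 := congrArg (F 1) (A (e 1))
  have A6 := congrArg (F 2) (A (e 1))
  have A7 := congrArg (F 0) (A (e 2))
  have A8 := congrArg (F 1) (A (e 2))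
  have A9 := congrArg (F 2) (A (e 2))
  have B1 := congrArg (E 0) (A (f 0))
  have B2 := congrArg (E 1) (A (f 0))
  have B3 := congrArg (E 2) (A (f 0))
  have B6 := congrArg (E 2) (A (f 1))
  have B7 := congrArg (E 0) (A (f 2))
  have B9 := congrArg (E 2) (A (f 2))
  simp only [map_add, map_smul, map_neg, a1, a2, a3, a4, a5, a6, b1, b2, b3, b4, b5, b6, De, Df,
    Ee, Ef, Fe, Ff, Fin.reduceEq, reduceIte, smul_eq_mul]
    at A1 A2 A3 A4 A5 A6 A7 A8 A9 B1 B2 B3 B6 B7 B9
  have R1 := congrArg (E 0) (R (e 0))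
  have R2 := congrArg (E 1) (R (e 0))
  have R5 := congrArg (E 1) (R (e 1))
  have R11 := congrArg (F 0) (R (f 0))
  have R12 := congrArg (F 1) (R (f 0))
  have R15 := congrArg (F 1) (R (f 1))
  have R18 := congrArg (F 2) (R (f 2))
  simp only [map_add, map_smul, a1, a2, a3, a4, a5, a6, εe h, εf h,
    Ee, Ef, Fe, Ff, Fin.reduceEq, reduceIte, smul_eq_mul] at R1 R2 R5 R11 R12 R15 R18
  have C1 := congrArg (F 2) (C (f 1))
  simp only [map_add, map_smul, map_neg, a1, a5, a6, c2, c3, c4, De, Df, Fe, Ff, Fin.reduceEq,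
    reduceIte, smul_eq_mul] at C1
  exact scal (x := k.x) (y := k.y) (y' := k.y') (w := k.w) (u' := k.u') (x' := k.x')
    (y1 := k.y1) (q := k.q) (w' := k.w') (z := k.z)
    (by linear_combination (-1 / 2 : ℂ) * A1) (by linear_combination (-1 / 2 : ℂ) * A2)
    (by linear_combination (-1 / 2 : ℂ) * A3) (by linear_combination (1 / 2 : ℂ) * A4)
    (by linear_combination (1 / 2 : ℂ) * A5) (by linear_combination (1 / 2 : ℂ) * A6)
    (by linear_combination (1 / 2 : ℂ) * A7) (by linear_combination (1 / 2 : ℂ) * A8)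
    (by linear_combination (1 / 2 : ℂ) * A9) (by linear_combination (1 / 2 : ℂ) * B1)
    (by linear_combination (1 / 2 : ℂ) * B2) (by linear_combination (-1 / 2 : ℂ) * B3)
    (by linear_combination (-1 / 2 : ℂ) * B6) (by linear_combination (1 / 2 : ℂ) * B7)
    (by linear_combination (-1 / 2 : ℂ) * B9) (by linear_combination R1)
    (by linear_combination R2) (by linear_combination R5) (by linear_combination R11)
    (by linear_combination R12) (by linear_combination R15) (by linear_combination R18)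
    (by linear_combination C1)

end H70

theorem sc : SC := by
  intro H _ _ _ N e f hI hD
  obtain ⟨k, hk⟩ := H70.exSh hD
  have T : ∀ a b, a ≠ b → ∃ c δ, D3 a b c ∧ H70.Sh (N.ρ a b) e f k a b c δ := fun a b hab => by
    obtain ⟨c, d⟩ := D3.ex hab
    obtain ⟨p, rfl, rfl, rfl⟩ := D3.trans (a := 0) (b := 1) (c := 2) (by unfold D3; decide) d
    exact ⟨_, _, d, hk.move hD (by decide) p⟩
  have S : ∀ (g : Fin 3 → H) (t : ℂ) i, t • g i ∈ Submodule.span ℂ (Set.range g) := fun g t i =>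
    Submodule.smul_mem _ _ (Submodule.subset_span ⟨i, rfl⟩)
  rcases H70.alt hI hD hk with ⟨z1, z2, z3, z4⟩ | ⟨z1, z2, z3, z4⟩
  · refine Or.inl fun a b hab i => ?_
    obtain ⟨c, δ, d, h1, h2, -, -, -, h6⟩ := T a b hab
    simp only [z1, z2, z3, z4, mul_zero, zero_smul, add_zero, zero_add] at h1 h2 h6
    rcases d.cover i with rfl | rfl | rfl
    · rw [h1]; exact add_mem (S _ _ _) (S _ _ _)
    · rw [h2]; exact add_mem (S _ _ _) (S _ _ _)
    · rw [h6]; exact S _ _ _
  · refine Or.inr fun a b hab i => ?_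
    obtain ⟨c, δ, d, -, -, h3, h4, h5, -⟩ := T a b hab
    simp only [z1, z2, z3, z4, mul_zero, zero_smul, add_zero, zero_add] at h3 h4 h5
    rcases d.cover i with rfl | rfl | rfl
    · rw [h4]; exact add_mem (S _ _ _) (S _ _ _)
    · rw [h5]; exact add_mem (S _ _ _) (S _ _ _)
    · rw [h3]; exact S _ _ _

end Pool.Agent.MP_3ce0a0_al.H79.Y
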